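import Pool.Agent.Lib.MP_688fd0_co.TF.Iface78

/-!
# Theorem F: the end (COREF and END give the listing sequence)
-/

namespace Pool.Agent.Lib.MP_688fd0_co.TF

open Pool.Agent.Lib.MP_688fd0_co.TE

universe u

/-- Theorem F. -/
theorem theoremF (hCore : COREF_S.{u}) (hEnd : ENDF_S.{u}) (G : Type u) [Group G] [Fintype G]
    (A : Set G) (h3 : 3 ≤ Fintype.card G) (hA : ∀ x ∈ A, x⁻¹ ∈ A)
    (hgen : Subgroup.closure A = ⊤)
    (hbig : Real.log (Fintype.card G) ^ (10 ^ 10) ≤ Nat.card A) :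
    ∃ a : Fin (Fintype.card G) → G, (∀ i, a i ∈ A) ∧
      Function.Bijective (fun k : Fin (Fintype.card G) => ((List.ofFn a).take (k + 1)).prod) ∧
      (List.ofFn a).prod = 1 := by
  classical
  set n : ℝ := (Fintype.card G : ℝ) with hn
  have hn3 : (3 : ℝ) ≤ n := by rw [hn]; exact_mod_cast h3
  have hL1' : 1.09 ≤ Real.log n := by
    have h1 : Real.log 3 ≤ Real.log n := Real.log_le_log (by norm_num) hn3
    have h2 : (1.09 : ℝ) ≤ Real.log 3 := by
      rw [Real.le_log_iff_exp_le (by norm_num)]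
      have h4 : Real.exp 1.09 = Real.exp 1 * Real.exp 0.09 := by
        rw [← Real.exp_add]; norm_num
      have h5 : Real.exp 0.09 ≤ 1 / (1 - 0.09) := by
        have := Real.one_sub_le_exp_neg (0.09 : ℝ)
        rw [Real.exp_neg] at this
        rw [le_div_iff₀ (by norm_num)]
        have hp := Real.exp_pos (0.09 : ℝ)
        calc Real.exp 0.09 * (1 - 0.09) ≤ Real.exp 0.09 * (Real.exp 0.09)⁻¹ := by gcongr
          _ = 1 := mul_inv_cancel₀ hp.ne'
      have h6 := Real.exp_one_lt_d9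
      have hp := Real.exp_pos (1 : ℝ)
      calc Real.exp 1.09 = Real.exp 1 * Real.exp 0.09 := h4
        _ ≤ 2.7182818286 * (1 / (1 - 0.09)) := by gcongr
        _ ≤ 3 := by norm_num
    linarith
  have hfin : Set.Finite A := Set.toFinite A
  set A1 : Finset G := hfin.toFinset.erase 1 with hA1
  have hmem : ∀ x, x ∈ A1 ↔ x ∈ A ∧ x ≠ 1 := by
    intro x
    rw [hA1, Finset.mem_erase, Set.Finite.mem_toFinset]
    tauto
  have hcard : Nat.card A ≤ A1.card + 1 := by
    have h1 : Nat.card A = hfin.toFinset.card := Nat.card_eq_card_finite_toFinset hfin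
    rw [h1]
    have h2 : hfin.toFinset.card - 1 ≤ A1.card := Finset.pred_card_le_card_erase
    omega
  have hgen1 : Subgroup.closure (A1 : Set G) = ⊤ := by
    rw [eq_top_iff, ← hgen, Subgroup.closure_le]
    intro x hx
    by_cases h : x = 1
    · rw [h]; exact one_mem _
    · exact Subgroup.subset_closure ((hmem x).2 ⟨hx, h⟩)
  have hbig1 : Real.log n ^ (10 ^ 9) ≤ A1.card := by
    have h1 : (Nat.card A : ℝ) ≤ A1.card + 1 := by exact_mod_cast hcard
    set y : ℝ := Real.log n ^ (10 ^ 9) with hy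
    have hy1 : 12 ≤ y := by
      have h2 : (1.09 : ℝ) ^ (10 ^ 9) ≤ y := pow_le_pow_left₀ (by norm_num) hL1' _
      have h3 : (12 : ℝ) ≤ (1.09 : ℝ) ^ (30 : ℕ) := by norm_num
      have h4 : (1.09 : ℝ) ^ (30 : ℕ) ≤ (1.09 : ℝ) ^ (10 ^ 9) :=
        pow_le_pow_right₀ (by norm_num) (by norm_num)
      exact h3.trans (h4.trans h2)
    have h2 : Real.log n ^ (10 ^ 10) = y ^ 10 := by
      rw [hy, ← pow_mul]
      exact congrArg (fun t : ℕ => Real.log n ^ t) (by norm_num)
    have h3 : y + 1 ≤ y ^ 10 := by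
      have h4 : y ^ 2 ≤ y ^ 10 := pow_le_pow_right₀ (by linarith) (by norm_num)
      nlinarith
    rw [h2] at hbig
    linarith
  obtain ⟨c, hB, hC⟩ := hCore G A1 h3
    (fun x hx => (hmem _).2 ⟨hA x ((hmem x).1 hx).1, fun h => ((hmem x).1 hx).2 (inv_eq_one.1 h)⟩)
    (fun h => ((hmem 1).1 h).2 rfl) hgen1 hbig1
  have hsub : ((c.B ∪ c.C : Finset G) : Set G) ⊆ A := by
    intro x hx
    have hx' : x ∈ c.B ∪ c.C := hx
    rw [Finset.mem_union] at hx'
    rcases hx' with h | h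
    · exact ((hmem x).1 (hB h)).1
    · exact ((hmem x).1 (hC h)).1
  have hsym : ∀ x ∈ ((c.B ∪ c.C : Finset G) : Set G), x⁻¹ ∈ ((c.B ∪ c.C : Finset G) : Set G) := by
    intro x hx
    have hx' : x ∈ c.B ∪ c.C := hx
    show x⁻¹ ∈ c.B ∪ c.C
    rw [Finset.mem_union] at hx' ⊢
    rcases hx' with h | h
    · exact Or.inl (c.hB.inv x h)
    · exact Or.inr (c.hC.inv x h)
  obtain ⟨a, h1, h2, h4⟩ := listing_of_isHC hsym (hEnd G c)
  have key : ∀ N : ℕ, N = Nat.card G → ∃ a : Fin N → G, (∀ i, a i ∈ A) ∧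
      Function.Injective (fun k : Fin N => ((List.ofFn a).take (k + 1)).prod) ∧
      (List.ofFn a).prod = 1 := by
    rintro N rfl
    exact ⟨a, fun i => hsub (h1 i), h2, h4⟩
  obtain ⟨a', h1', h2', h4'⟩ := key (Fintype.card G) (Nat.card_eq_fintype_card).symm
  refine ⟨a', h1', ?_, h4'⟩
  rw [Fintype.bijective_iff_injective_and_card]
  exact ⟨h2', by rw [Fintype.card_fin]⟩

end Pool.Agent.Lib.MP_688fd0_co.TF
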