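import Pool.Agent.Lib.MP_688fd0_co.TF.Compat

/-!
# Theorem F, module PKSF: the calculus of test kernels
-/

set_option autoImplicit false
set_option linter.all false

namespace Pool.Agent.Lib.MP_688fd0_co.TF.H18

open Pool.Agent.Lib.MP_688fd0_co.TE

universe u

section pks

variable {G : Type u} [Group G] [Fintype G] [DecidableEq G]

theorem ss_of_ds {M : Matrix G G ℝ} (h : DS M) : SS M :=
  ⟨h.nn, fun x => (h.row x).le, fun y => (h.col y).le⟩

theorem ss_one : SS (1 : Matrix G G ℝ) := by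
  refine ⟨fun x y => ?_, fun x => ?_, fun y => ?_⟩
  · rw [Matrix.one_apply]; split <;> norm_num
  · simp [Matrix.one_apply]
  · simp [Matrix.one_apply]

theorem ss_mul {M N : Matrix G G ℝ} (hM : SS M) (hN : SS N) : SS (M * N) := by
  refine ⟨fun x y => ?_, fun x => ?_, fun y => ?_⟩
  · rw [Matrix.mul_apply]
    exact Finset.sum_nonneg fun z _ => mul_nonneg (hM.nn _ _) (hN.nn _ _)
  · simp only [Matrix.mul_apply]
    rw [Finset.sum_comm]
    calc ∑ z, ∑ y, M x z * N z y ≤ ∑ z, M x z := by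
          refine Finset.sum_le_sum fun z _ => ?_
          rw [← Finset.mul_sum]
          exact mul_le_of_le_one_right (hM.nn _ _) (hN.row z)
      _ ≤ 1 := hM.row x
  · simp only [Matrix.mul_apply]
    rw [Finset.sum_comm]
    calc ∑ z, ∑ x, M x z * N z y ≤ ∑ z, N z y := by
          refine Finset.sum_le_sum fun z _ => ?_
          rw [← Finset.sum_mul]
          exact mul_le_of_le_one_left (hN.nn _ _) (hM.col z)
      _ ≤ 1 := hN.col y

theorem ss_tr {M : Matrix G G ℝ} (hM : SS M) : SS M.transpose :=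
  ⟨fun x y => hM.nn y x, fun x => hM.col x, fun y => hM.row y⟩

theorem mul_le' {M N : Matrix G G ℝ} {c : ℝ} (hc : 0 ≤ c) (hM : ∀ x y, M x y ≤ c) (hN : SS N)
    (x y : G) : (M * N) x y ≤ c := by
  rw [Matrix.mul_apply]
  calc ∑ z, M x z * N z y ≤ ∑ z, c * N z y :=
        Finset.sum_le_sum fun z _ => mul_le_mul_of_nonneg_right (hM x z) (hN.nn z y)
    _ = c * ∑ z, N z y := by rw [Finset.mul_sum]
    _ ≤ c := mul_le_of_le_one_right hc (hN.col y)

theorem le_mul' {M N : Matrix G G ℝ} {c : ℝ} (hc : 0 ≤ c) (hM : ∀ x y, M x y ≤ c) (hN : SS N)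
    (x y : G) : (N * M) x y ≤ c := by
  rw [Matrix.mul_apply]
  calc ∑ z, N x z * M z y ≤ ∑ z, N x z * c :=
        Finset.sum_le_sum fun z _ => mul_le_mul_of_nonneg_left (hM z y) (hN.nn x z)
    _ = (∑ z, N x z) * c := by rw [Finset.sum_mul]
    _ ≤ c := mul_le_of_le_one_left hc (hN.row x)

variable (c : Ctx G)

theorem wm_cases (hMat : MAT_S.{u}) (τ : Bool) :
    DS (WM c.B c.C τ) ∧ (WM c.B c.C τ).transpose = WM c.B c.C τ := by
  obtain ⟨hB, -, hBt⟩ := (hMat G).1 c.B c.hB
  obtain ⟨hC, -, hCt⟩ := (hMat G).1 c.C c.hC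
  unfold WM
  cases τ with
  | false => exact ⟨by simpa using hB, by simpa using hBt⟩
  | true =>
    rw [if_pos rfl]
    constructor
    · refine ⟨fun x y => ?_, fun x => ?_, fun y => ?_⟩
      · simp only [Matrix.smul_apply, Matrix.add_apply, smul_eq_mul]
        have h1 := hB.nn x y
        have h2 := hC.nn x y
        positivity
      · simp only [Matrix.smul_apply, Matrix.add_apply, smul_eq_mul]
        rw [← Finset.mul_sum, Finset.sum_add_distrib, hB.row, hC.row]
        norm_num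
      · simp only [Matrix.smul_apply, Matrix.add_apply, smul_eq_mul]
        rw [← Finset.mul_sum, Finset.sum_add_distrib, hB.col, hC.col]
        norm_num
    · rw [Matrix.transpose_smul, Matrix.transpose_add, hBt, hCt]

theorem bas_tr (hMat : MAT_S.{u}) {M : Matrix G G ℝ} (h : c.Bas M) : c.Bas M.transpose := by
  rcases h with rfl | ⟨τ, rfl⟩ | ⟨τ, par, j, j', g, h1, h2, h3, h4⟩
  · rw [((hMat G).1 c.B c.hB).2.2]
    exact Or.inl rfl
  · rw [(wm_cases c hMat τ).2]
    exact Or.inr (Or.inl ⟨τ, rfl⟩)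
  · refine Or.inr (Or.inr ⟨τ, par, j, j', g, h1, h2, h3, ?_⟩)
    rcases h4 with rfl | rfl
    · exact Or.inr rfl
    · exact Or.inl (Matrix.transpose_transpose _)

theorem hk_ss (hK : KPF_S.{u}) (τ par : Bool) (j j' : ℕ) (g : G) (h1 : j ≤ j') (h2 : j' ≤ j + 6)
    (h3 : j' ≤ 6 * c.ha par) : SS (c.hk τ par j j' g) := by
  obtain ⟨k1, -, k3, k4, -, -, -⟩ := hK G c τ par j j' g h1 h2 h3
  refine ⟨fun x y => ?_, fun x => ?_, fun y => ?_⟩
  · unfold Ctx.hk
    have := k1 x y
    positivity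
  · unfold Ctx.hk
    rw [← Finset.mul_sum]
    have := k3 x
    linarith
  · unfold Ctx.hk
    rw [← Finset.mul_sum]
    have := k4 y
    linarith

theorem bas_ss (hMat : MAT_S.{u}) (hK : KPF_S.{u}) {M : Matrix G G ℝ} (h : c.Bas M) : SS M := by
  rcases h with rfl | ⟨τ, rfl⟩ | ⟨τ, par, j, j', g, h1, h2, h3, h4⟩
  · exact ss_of_ds ((hMat G).1 c.B c.hB).1
  · exact ss_of_ds (wm_cases c hMat τ).1
  · rcases h4 with rfl | rfl
    · exact hk_ss c hK τ par j j' g h1 h2 h3
    · exact ss_tr (hk_ss c hK τ par j j' g h1 h2 h3)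

theorem pk_tr (hMat : MAT_S.{u}) {N : ℕ} {M : Matrix G G ℝ} (h : c.PK N M) :
    c.PK N M.transpose := by
  obtain ⟨l, hl, hb, rfl⟩ := h
  refine ⟨(l.map Matrix.transpose).reverse, by simpa using hl, ?_, ?_⟩
  · intro p hp
    rw [List.mem_reverse, List.mem_map] at hp
    obtain ⟨p', hp', rfl⟩ := hp
    exact bas_tr c hMat (hb p' hp')
  · rw [Matrix.transpose_list_prod]

theorem pk_mul {N N' : ℕ} {M M' : Matrix G G ℝ} (h : c.PK N M) (h' : c.PK N' M') :
    c.PK (N + N') (M * M') := by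
  obtain ⟨l, hl, hb, rfl⟩ := h
  obtain ⟨l', hl', hb', rfl⟩ := h'
  refine ⟨l ++ l', by rw [List.length_append]; omega, ?_, ?_⟩
  · intro p hp
    rcases List.mem_append.1 hp with hp | hp
    · exact hb p hp
    · exact hb' p hp
  · rw [List.prod_append]

theorem pk_mono {N N' : ℕ} {M : Matrix G G ℝ} (hN : N ≤ N') (h : c.PK N M) : c.PK N' M := by
  obtain ⟨l, hl, hb, rfl⟩ := h
  exact ⟨l, hl.trans hN, hb, rfl⟩

theorem pk_one {M : Matrix G G ℝ} (h : c.Bas M) : c.PK 1 M :=
  ⟨[M], by simp, by simpa using h, by simp⟩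

theorem pk_ss (hMat : MAT_S.{u}) (hK : KPF_S.{u}) {N : ℕ} {M : Matrix G G ℝ} (h : c.PK N M) :
    SS M := by
  obtain ⟨l, hl, hb, rfl⟩ := h
  clear hl
  induction l with
  | nil => simpa using ss_one
  | cons p l ih =>
    rw [List.prod_cons]
    exact ss_mul (bas_ss c hMat hK (hb p List.mem_cons_self))
      (ih fun q hq => hb q (List.mem_cons_of_mem _ hq))

theorem UM_le (x y : G) : UM c.B x y ≤ 1 / c.b := by
  unfold UM Ctx.b
  exact div_le_div_of_nonneg_right (ind_le_one _) (Nat.cast_nonneg _)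

/-- Descriptors of basic kernels. -/
abbrev Dsc (c : Ctx G) : Type u :=
  Option (Option Bool) ⊕ (Bool × Bool × Bool × Fin (6 * c.k + 7) × Fin 7 × G)

/-- The kernel of a descriptor. -/
noncomputable def dk : Dsc c → Matrix G G ℝ
  | Sum.inl none => UM c.B
  | Sum.inl (some none) => UM c.B
  | Sum.inl (some (some τ)) => WM c.B c.C τ
  | Sum.inr (τ, par, tr, j, r, g) =>
    if tr then (c.hk τ par j (j + r) g).transpose else c.hk τ par j (j + r) g

theorem dk_surj {M : Matrix G G ℝ} (h : c.Bas M) : ∃ d : Dsc c, dk c d = M := by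
  rcases h with rfl | ⟨τ, rfl⟩ | ⟨τ, par, j, j', g, h1, h2, h3, h4⟩
  · exact ⟨Sum.inl none, rfl⟩
  · exact ⟨Sum.inl (some (some τ)), rfl⟩
  · have hha : c.ha par ≤ c.k + 1 := by unfold Ctx.ha; split <;> omega
    rcases h4 with rfl | rfl
    · refine ⟨Sum.inr (τ, par, false, ⟨j, by omega⟩, ⟨j' - j, by omega⟩, g), ?_⟩
      simp only [dk, Bool.false_eq_true, if_false]
      rw [Nat.add_sub_cancel' h1]
    · refine ⟨Sum.inr (τ, par, true, ⟨j, by omega⟩, ⟨j' - j, by omega⟩, g), ?_⟩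
      simp only [dk, if_true]
      rw [Nat.add_sub_cancel' h1]

theorem card_dsc : Fintype.card (Dsc c) = 4 + 8 * (6 * c.k + 7) * 7 * Fintype.card G := by
  show Fintype.card (Option (Option Bool) ⊕ (Bool × Bool × Bool × Fin (6 * c.k + 7) × Fin 7 × G)) = _
  simp only [Fintype.card_sum, Fintype.card_option, Fintype.card_prod, Fintype.card_bool,
    Fintype.card_fin]
  ring

theorem reduce_ofFn {D : Type*} (N : ℕ) (l' : List D) (hl : l'.length ≤ N) :
    (List.ofFn (fun i : Fin N => l'[(i : ℕ)]?)).reduceOption = l' := by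
  have h1 : List.ofFn (fun i : Fin N => l'[(i : ℕ)]?) =
      l'.map some ++ List.replicate (N - l'.length) none := by
    refine List.ext_getElem? fun n => ?_
    rw [List.getElem?_ofFn]
    by_cases hn : n < N
    · rw [dif_pos hn]
      by_cases hn' : n < l'.length
      · rw [List.getElem?_append_left (by simpa using hn')]
        simp [List.getElem?_map, hn']
      · rw [List.getElem?_append_right (by simpa using hn')]
        have h2 : l'[n]? = none := by
          rw [List.getElem?_eq_none_iff]; omega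
        simp only [h2, List.length_map]
        rw [List.getElem?_replicate, if_pos (by omega)]
    · rw [dif_neg hn, eq_comm, List.getElem?_eq_none_iff]
      simp; omega
  rw [h1, List.reduceOption_append]
  have h3 : (List.replicate (N - l'.length) (none : Option D)).reduceOption = [] := by
    generalize N - l'.length = r
    induction r with
    | zero => rfl
    | succ r ih => rw [List.replicate_succ, List.reduceOption_cons_of_none, ih]
  rw [h3, List.append_nil]
  clear h1 h3 hl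
  induction l' with
  | nil => rfl
  | cons a l ih => rw [List.map_cons, List.reduceOption_cons_of_some, ih]

/-- Finiteness of the family of products. -/
theorem pk_fin (hN : NUMF_S.{u}) (N : ℕ) (hN40 : N ≤ 40) :
    ∃ (m : ℕ) (f : Fin m → Matrix G G ℝ), (m : ℝ) ≤ (Fintype.card G : ℝ) ^ 150 ∧
    (∀ i, c.TK N (f i)) ∧ ∀ M, c.TK N M → ∃ i, f i = M := by
  classical
  let P := Fin N → Option (Dsc c)
  let g : P → Matrix G G ℝ := fun p => ((List.ofFn p).reduceOption.map (dk c)).prod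
  let T : Finset (Matrix G G ℝ) := (Finset.univ.image g).filter (c.TK N)
  have hcov : ∀ M, c.TK N M → M ∈ T := by
    intro M hM
    refine Finset.mem_filter.2 ⟨?_, hM⟩
    obtain ⟨⟨l, hl, hb, rfl⟩, -⟩ := hM
    rw [Finset.mem_image]
    have hlift : ∃ l' : List (Dsc c), l'.map (dk c) = l := by
      clear hl
      induction l with
      | nil => exact ⟨[], rfl⟩
      | cons p l ih =>
        obtain ⟨l', hl'⟩ := ih (fun q hq => hb q (List.mem_cons_of_mem _ hq))
        obtain ⟨d, hd⟩ := dk_surj c (hb p List.mem_cons_self)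
        exact ⟨d :: l', by rw [List.map_cons, hl', hd]⟩
    obtain ⟨l', rfl⟩ := hlift
    rw [List.length_map] at hl
    refine ⟨fun i => l'[(i : ℕ)]?, Finset.mem_univ _, ?_⟩
    show (((List.ofFn (fun i : Fin N => l'[(i : ℕ)]?)).reduceOption).map (dk c)).prod = _
    rw [reduce_ofFn N l' hl]
  have hcard : (T.card : ℝ) ≤ (Fintype.card G : ℝ) ^ 150 := by
    have h1 : T.card ≤ Fintype.card P :=
      (Finset.card_filter_le _ _).trans (Finset.card_image_le.trans (le_of_eq Finset.card_univ))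
    have h2 : Fintype.card P = (Fintype.card (Dsc c) + 1) ^ N := by
      show Fintype.card (Fin N → Option (Dsc c)) = _
      rw [Fintype.card_fun, Fintype.card_option, Fintype.card_fin]
    obtain ⟨n1, n2, -, n4, -, -, -, n8, n9, -⟩ := hN G c
    have hX1 : 1 ≤ c.X := by linarith [show (1:ℝ) ≤ 10 ^ 6 by norm_num]
    have hkn : 10 ^ 6 * c.k ≤ Fintype.card G := by
      have h3 : (10 ^ 6 * c.k : ℝ) ≤ Fintype.card G := by
        have hk1 : (1 : ℝ) ≤ 10 ^ 6 * c.k := by
          have : (100 : ℝ) ≤ c.k := by exact_mod_cast n4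
          linarith
        calc (10 ^ 6 * c.k : ℝ) ≤ (10 ^ 6 * c.k : ℝ) ^ 200 := le_self_pow₀ hk1 (by norm_num)
          _ ≤ c.X := n2
          _ ≤ c.X ^ 200000 := le_self_pow₀ hX1 (by norm_num)
          _ ≤ c.b := n8
          _ ≤ _ := n9
      exact_mod_cast h3
    have h3 : Fintype.card (Dsc c) + 1 ≤ Fintype.card G ^ 2 := by
      rw [card_dsc c]
      have h4 : 8 * (6 * c.k + 7) * 7 + 5 ≤ Fintype.card G := by omega
      have h5 : 1 ≤ Fintype.card G := by omega
      nlinarith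
    have h6 : T.card ≤ Fintype.card G ^ 150 := by
      calc T.card ≤ (Fintype.card (Dsc c) + 1) ^ N := h1.trans (le_of_eq h2)
        _ ≤ (Fintype.card G ^ 2) ^ N := Nat.pow_le_pow_left h3 N
        _ = Fintype.card G ^ (2 * N) := by rw [← pow_mul]
        _ ≤ Fintype.card G ^ 150 := Nat.pow_le_pow_right Fintype.card_pos (by omega)
    exact_mod_cast h6
  refine ⟨T.card, fun i => (T.equivFin.symm i).1, hcard, fun i => ?_, fun M hM => ?_⟩
  · exact (Finset.mem_filter.1 (T.equivFin.symm i).2).2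
  · exact ⟨T.equivFin ⟨M, hcov M hM⟩, by simp⟩

end pks

theorem pksf (hMat : MAT_S.{u}) (hK : KPF_S.{u}) (hN : NUMF_S.{u}) : PKSF_S.{u} := by
  intro G _ _ _ c
  obtain ⟨n1, -, -, -, -, -, n7, n8, n9, n10, n11, n12, -⟩ := hN G c
  have hX1 : 1 ≤ c.X := by linarith [show (1:ℝ) ≤ 10 ^ 6 by norm_num]
  have hb1 : 2 ≤ c.b1 := by
    have h1 : c.X ≤ c.X ^ 50000 := le_self_pow₀ hX1 (by norm_num)
    have h2 : (2 : ℝ) ≤ 10 ^ 6 := by norm_num
    linarith
  have h1b : 0 ≤ 1 / c.b1 := by positivity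
  have hbb : 1 / c.b ≤ 1 / c.b1 := by
    refine one_div_le_one_div_of_le n10 ?_
    rw [← n12]
    exact le_self_pow₀ (by linarith) (by norm_num)
  have hhalf : c.b ^ (1 / 2 : ℝ) = c.b1 ^ 2 := by
    rw [← n12, ← Real.rpow_natCast, ← Real.rpow_mul n10.le]
    norm_num
  have hhk : ∀ τ par j j' g, 1 ≤ j → j ≤ j' → j' ≤ j + 6 → j' < 6 * c.ha par →
      ∀ x v, c.hk τ par j j' g x v ≤ 1 / c.b1 := by
    intro τ par j j' g h1 h2 h3 h4 x v
    obtain ⟨-, -, -, -, -, -, k7⟩ := hK G c τ par j j' g h2 h3 h4.le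
    have h5 := k7 h1 h4 x v
    rw [hhalf] at h5
    unfold Ctx.hk
    have h6 : 4 / c.b1 ^ 2 ≤ 2 * (1 / c.b1) := by
      rw [mul_one_div, div_le_div_iff₀ (by positivity) n10]
      nlinarith
    linarith
  refine ⟨fun N M => pk_tr c hMat, fun N N' M M' => pk_mul c, fun N N' M => pk_mono c,
    fun M => pk_one c, fun N M => pk_ss c hMat hK, ?_, ?_, ?_, ?_, ?_, pk_fin c hN⟩
  · intro N M h
    exact ⟨pk_tr c hMat h.1, fun x y => h.2 y x⟩
  · intro N N' M M' h h'
    have hd := pk_ss c hMat hK h'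
    exact ⟨⟨pk_mul c h.1 h', fun x y => mul_le' h1b h.2 hd x y⟩,
      ⟨pk_mul c h' h.1, fun x y => le_mul' h1b h.2 hd x y⟩⟩
  · intro N N' M hN h
    exact ⟨pk_mono c hN h.1, h.2⟩
  · exact ⟨pk_one c (Or.inl rfl), fun x y => (UM_le c x y).trans hbb⟩
  · intro τ par j j' g h1 h2 h3 h4
    have hB : c.Bas (c.hk τ par j j' g) :=
      Or.inr (Or.inr ⟨τ, par, j, j', g, h2, h3, h4.le, Or.inl rfl⟩)
    exact ⟨⟨pk_one c hB, hhk τ par j j' g h1 h2 h3 h4⟩,
      ⟨pk_tr c hMat (pk_one c hB), fun x y => hhk τ par j j' g h1 h2 h3 h4 y x⟩⟩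

end Pool.Agent.Lib.MP_688fd0_co.TF.H18
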