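import Pool.Agent.Lib.MP_688fd0_co.TE.H9.Push
import Pool.Agent.Lib.MP_688fd0_co.TE.H15.Pfg
import Pool.Agent.Lib.MP_688fd0_co.TE.H19.Suml
import Pool.Agent.Lib.MP_688fd0_co.TE.H65.Lvun
import Pool.Agent.Lib.MP_688fd0_co.TE.H17.Basic
import Pool.Agent.Lib.MP_688fd0_co.TE.H17.Curry
import Pool.Agent.Lib.MP_688fd0_co.TE.H20.Select
import Pool.Agent.Lib.MP_688fd0_co.TE.H34.Chern
import Pool.Agent.Lib.MP_688fd0_co.TE.H34.Exx
import Pool.Agent.Lib.MP_688fd0_co.TE.H54.Mcd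
import Pool.Agent.Lib.MP_688fd0_co.TE.H54.Har
import Pool.Agent.Lib.MP_688fd0_co.TE.H69.Lowd
import Pool.Agent.Lib.MP_688fd0_co.TE.H74.Typ
import Pool.Agent.Lib.MP_688fd0_co.TE.H41.Gen
import Pool.Agent.Lib.MP_688fd0_co.TE.H41.Rup
import Pool.Agent.Lib.MP_688fd0_co.TE.H57.Upd
import Pool.Agent.Lib.MP_688fd0_co.TE.H41.Mat
import Pool.Agent.Lib.MP_688fd0_co.TE.H41.Logc
import Pool.Agent.Lib.MP_688fd0_co.TF.H12.Levmf
import Pool.Agent.Lib.MP_688fd0_co.TF.H12.Resmf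
import Pool.Agent.Lib.MP_688fd0_co.TF.H17.Lsf
import Pool.Agent.Lib.MP_688fd0_co.TF.H18.Final
import Pool.Agent.Lib.MP_688fd0_co.TF.H18.Pksf
import Pool.Agent.Lib.MP_688fd0_co.TF.H20.Adjf
import Pool.Agent.Lib.MP_688fd0_co.TF.H20.Cplf
import Pool.Agent.Lib.MP_688fd0_co.TF.H20.Telef
import Pool.Agent.Lib.MP_688fd0_co.TF.H20.Trf
import Pool.Agent.Lib.MP_688fd0_co.TF.H21.Glawf
import Pool.Agent.Lib.MP_688fd0_co.TF.H21.Resf
import Pool.Agent.Lib.MP_688fd0_co.TF.H30.Levsf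
import Pool.Agent.Lib.MP_688fd0_co.TF.H32.Llf
import Pool.Agent.Lib.MP_688fd0_co.TF.H35.LowF
import Pool.Agent.Lib.MP_688fd0_co.TF.H35.PpdF
import Pool.Agent.Lib.MP_688fd0_co.TF.H37.Absf
import Pool.Agent.Lib.MP_688fd0_co.TF.H41.Choicef
import Pool.Agent.Lib.MP_688fd0_co.TF.H48.Lvung
import Pool.Agent.Lib.MP_688fd0_co.TF.H48.Rlawf
import Pool.Agent.Lib.MP_688fd0_co.TF.H54.Coref
import Pool.Agent.Lib.MP_688fd0_co.TF.H54.Harf
import Pool.Agent.Lib.MP_688fd0_co.TF.H54.Pff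
import Pool.Agent.Lib.MP_688fd0_co.TF.H57.Endf
import Pool.Agent.Lib.MP_688fd0_co.TF.H57.Ethf
import Pool.Agent.Lib.MP_688fd0_co.TF.H57.Reg5f
import Pool.Agent.Lib.MP_688fd0_co.TF.H58.Ldf2
import Pool.Agent.Lib.MP_688fd0_co.TF.H58.Numf
import Pool.Agent.Lib.MP_688fd0_co.TF.H58.Psi
import Pool.Agent.Lib.MP_688fd0_co.TF.H62.Lowbf
import Pool.Agent.Lib.MP_688fd0_co.TF.H62.Lowcf
import Pool.Agent.Lib.MP_688fd0_co.TF.H62.Stagef
import Pool.Agent.Lib.MP_688fd0_co.TF.H63.Psi1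
import Pool.Agent.Lib.MP_688fd0_co.TF.H65.Hall
import Pool.Agent.Lib.MP_688fd0_co.TF.H65.Reg2
import Pool.Agent.Lib.MP_688fd0_co.TF.H70.Iso
import Pool.Agent.Lib.MP_688fd0_co.TF.H74.Rndf
import Pool.Agent.Lib.MP_688fd0_co.TF.H78.Loadsf
import Pool.Agent.Lib.MP_688fd0_co.TF.H80.Brkf
import Pool.Agent.Lib.MP_688fd0_co.TF.H80.Cenf
import Pool.Agent.Lib.MP_688fd0_co.TF.H80.Hub1
import Pool.Agent.Lib.MP_688fd0_co.TF.H80.HubAll
import Pool.Agent.Lib.MP_688fd0_co.TF.H82.Gadf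
import Pool.Agent.Lib.MP_688fd0_co.TF.H82.Reg4f
import Pool.Agent.Lib.MP_688fd0_co.TF.H91.Kpf
import Pool.Agent.Lib.MP_688fd0_co.TF.H91.Wlkf
import Pool.Agent.Lib.MP_688fd0_co.TF.H92.Hub2
import Pool.Agent.Lib.MP_688fd0_co.TF.H92.Hub3
import Pool.Agent.Lib.MP_688fd0_co.TF.H92.Mrg
import Pool.Agent.Lib.MP_688fd0_co.TF.H94.Kerf
import Pool.Agent.Lib.MP_688fd0_co.TF.H94.Lowaf
import Pool.Agent.Lib.MP_688fd0_co.TF.H94.Qqf
import Pool.Agent.Lib.MP_688fd0_co.TF.H94.Rhof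

/-!
# Theorem F: assembly
-/

namespace Pool.Agent.Lib.MP_688fd0_co.TF.All

open Pool.Agent.Lib.MP_688fd0_co
open Pool.Agent.Lib.MP_688fd0_co.TE
open Pool.Agent.Lib.MP_688fd0_co.TF

universe u v w

theorem pipr : PIPR_S.{u, v} := TE.H9.pipr
theorem upd : UPD_S.{u, v} := TE.H57.upd pipr
theorem seq : SEQ_S.{u} := TE.H57.seq pipr
theorem chern : CHERN_S.{u, v} := TE.H34.chern pipr
theorem mcd : MCD_S.{u, v} := TE.H54.mcd pipr upd
theorem basic : BASIC_S.{u, v} := TE.H17.basic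
theorem curry : CURRY_S.{u, v, w} := TE.H17.curry
theorem mat : MAT_S.{u} := TE.H41.mat
theorem logc : LOGC_S.{u} := TE.H41.logc
theorem exx : EXX_S.{u, v} := TE.H34.exx pipr pipr
theorem lowd : LOWD_S.{u, v} := TE.H69.lowd curry curry chern
theorem select : SELECT_S.{u, v, w} := TE.H20.select pipr pipr upd upd chern basic
theorem kerf : KERF_S.{u} := H94.kerf
theorem qqf : QQF_S.{u} := H94.qqf
theorem numf : NUMF_S.{u} := H58.numf mat
theorem numc : NUMC_S.{u} := TF.numc numf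
theorem mrg : MRG_S.{u} := H92.mrg qqf
theorem kpf : KPF_S.{u} := H91.kpf kerf qqf
theorem cplf : CPLF_S.{u} := H20.cplf kerf qqf mrg
theorem wlkf : WLKF_S.{u} := H91.wlkf kerf qqf numf cplf
theorem telef : TELEF_S.{u} := H20.telef kerf cplf qqf
theorem adjf : ADJF_S.{u} := H20.adjf
theorem rhof : RHOF_S.{u, v} := H94.rhof
theorem rlawf : RLAWF_S.{u, v} := H48.rlawf rhof
theorem lowaf : LOWAF_S.{u, v} := H94.lowaf exx TE.H15.pfg basic
theorem lowbf : LOWBF_S.{u, v} := H62.lowbf exx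
theorem lowcf : LOWCF_S.{u, v} := H62.lowcf rhof exx TE.H15.pfg TE.H19.pwc
theorem lowf : LOWF_S.{u, v} :=
  H35.lowf pipr exx seq rhof lowaf lowbf lowcf lowd
theorem stagef : STAGEF_S.{u, v, w} := H62.stagef lowf lowd upd
theorem trf : TRF_S.{u, v} := H20.trf kerf qqf numf mrg
theorem ldf : LDF_S.{u, v} := H58.ldf kerf qqf numf mrg
theorem lsf : LSF_S.{u, v} := H17.lsf kerf qqf numf mrg
theorem pksf : PKSF_S.{u} := H18.pksf mat kpf numf
theorem resmf : RESMF_S.{u} := H12.resmf kerf numf trf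
theorem levmf : LEVMF_S.{u} := H12.levmf kerf numf trf
theorem loadsf : LOADSF_S.{u, v} := H78.loadsf rlawf
theorem glawf : GLAWF_S.{u} := H21.glawf adjf wlkf cplf pksf pipr upd numf
theorem absf : ABSF_S.{u} := H37.absf adjf
theorem pff : PFF_S.{u, v} := H54.pff rhof kerf cplf wlkf pksf numf
theorem resf : RESF_S.{u} :=
  H21.resf numf pksf resmf pff stagef ldf lsf kpf pipr exx TE.H19.suml rlawf loadsf
theorem gadf : GADF_S.{u} :=
  H82.gadf numf pipr pipr upd pksf glawf chern absf resf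
theorem ppdf : PPDF_S.{u} := H35.ppdf rlawf numf
theorem reg2f : REG2F_S.{u} := H65.reg2 mcd upd numc mat (pksc pksf)
theorem reg3f : REG3F_S.{u} := H65.reg3 mcd upd numc mat (pksc pksf)
theorem reg4f : REG4F_S.{u} :=
  H82.reg4f mcd basic pipr mat numf pksf
theorem reg5f : REG5F_S.{u} :=
  H57.reg5f mcd upd basic basic kpf cplf numf mat pksf
theorem hubf : HUBF_S.{u} := H80.hub numc (H80.hub1 mat numc) H92.hub2 H92.hub3
theorem ethf : ETHF_S.{u} := H57.ethf pksf telef kerf numf cplf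
theorem cenf : CENF_S.{u} := H80.cenf telef numf
theorem brkf : BRKF_S.{u} := H80.brkf ethf pksf numf mat
theorem psif : PSIF_S.{u} := H58.psi hubf (H63.psi1 mat) cenf brkf
theorem hallf : HALLF_S.{u} := H65.hall psif
theorem rndf : RNDF_S.{u} := H74.rndf select pksf numf
theorem iso1f : ISO1F_S.{u} := H70.iso1f kerf cplf telef pksf numf
theorem iso2f : ISO2F_S.{u} := H70.iso2f kerf cplf telef pksf numf
theorem coref : COREF_S.{u} :=
  H54.coref mat logc TE.H41.rup TE.H74.typ (H54.harf mat logc)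
    TE.H41.gen H41.choicef
theorem llf : LLF_S.{u} := H32.llf H48.lvung chern numf
theorem levsf : LEVSF_S.{u} :=
  H30.levsf stagef TE.H65.lvun llf ppdf reg2f reg3f reg4f reg5f levmf pff pksf ldf lsf numf
theorem endf : ENDF_S.{u} := H57.endf pksf numf iso1f iso2f rndf gadf levsf hallf

/-- Theorem F, unconditional. -/
theorem theoremF (G : Type u) [Group G] [Fintype G] (A : Set G) (h3 : 3 ≤ Fintype.card G)
    (hA : ∀ x ∈ A, x⁻¹ ∈ A) (hgen : Subgroup.closure A = ⊤)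
    (hbig : Real.log (Fintype.card G) ^ (10 ^ 10) ≤ Nat.card A) :
    ∃ a : Fin (Fintype.card G) → G, (∀ i, a i ∈ A) ∧
      Function.Bijective (fun k : Fin (Fintype.card G) => ((List.ofFn a).take (k + 1)).prod) ∧
      (List.ofFn a).prod = 1 :=
  TF.theoremF coref endf G A h3 hA hgen hbig

end Pool.Agent.Lib.MP_688fd0_co.TF.All
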